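import Pool.Agent.Lib_helper57.YF.I
import Pool.Agent.Lib_helper74.NF.ClassesE

/-!
# Deterministic double exponential time (MP_675993_lc)
-/

set_option autoImplicit false
set_option linter.unusedSectionVars false

namespace Pool.Agent.DET

open Pool.Agent.CK Pool.Agent.CKP

variable {O : Lang}

/-- the exponent of the running time -/
theorem EJ_realc {r : ℕ} (hr : 1 ≤ r) (b e2 c0 : ℕ) : ∃ C : ℝ, 0 ≤ C ∧ ∀ n : ℕ,
    ((EJ r (2 * r) b e2 (2 ^ (n + c0 + 1)) + (n + c0 + 2) : ℕ) : ℝ) ≤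
      C * ((2 : ℝ) ^ (n + 1)) ^ (1 / (r : ℝ)) + C := by
  have hr0 : (0 : ℝ) < r := by exact_mod_cast (by omega : 0 < r)
  obtain ⟨C1, hC1, h1⟩ := EJ_real hr b e2
  obtain ⟨K, hK, hKY⟩ := growth2 (δ := 1 / (r : ℝ)) (by positivity)
  refine ⟨C1 * ((2 : ℝ) ^ c0) ^ (1 / (r : ℝ)) + C1 + K + (c0 + 1), by positivity, fun n => ?_⟩
  have h2 := h1 (n + c0)
  have h3 : ((2 : ℝ) ^ (n + c0 + 1)) ^ (1 / (r : ℝ)) =
      ((2 : ℝ) ^ c0) ^ (1 / (r : ℝ)) * ((2 : ℝ) ^ (n + 1)) ^ (1 / (r : ℝ)) := by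
    rw [← Real.mul_rpow (by positivity) (by positivity), ← pow_add]
    congr 2
    ring
  rw [h3] at h2
  have h4 : ((n : ℝ) + 1) ≤ K * ((2 : ℝ) ^ (n + 1)) ^ (1 / (r : ℝ)) := by
    have h5 := hKY ((2 : ℝ) ^ (n + 1)) (by positivity)
    have h6 : (2 : ℝ) ^ (((n + 1 : ℕ)) : ℝ) ≤
        (2 : ℝ) ^ (K * ((2 : ℝ) ^ (n + 1)) ^ (1 / (r : ℝ))) := by
      rw [Real.rpow_natCast]
      exact h5
    have h7 := (Real.rpow_le_rpow_left_iff (by norm_num : (1 : ℝ) < 2)).mp h6
    push_cast at h7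
    exact h7
  set Z := ((2 : ℝ) ^ (n + 1)) ^ (1 / (r : ℝ)) with hZ
  have hZ0 : 0 ≤ Z := by positivity
  have hA0 : 0 ≤ ((2 : ℝ) ^ c0) ^ (1 / (r : ℝ)) := by positivity
  push_cast at h2 ⊢
  nlinarith [mul_nonneg hC1 hZ0, mul_nonneg hC1 hA0, mul_nonneg hK hZ0,
    mul_nonneg (Nat.cast_nonneg (α := ℝ) c0) hZ0]

/-- **From a function in polynomial time with long unary arguments to a program.** -/
theorem dtime_of_fun {sol : List Unit → List Unit → List Bool → Bool}
    (hsol : PTime O (fun p : List Unit × List Unit × List Bool => sol p.1 p.2.1 p.2.2))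
    {r : ℕ} (hr : 1 ≤ r) {ε : ℝ} (hrε : 1 / (r : ℝ) < ε) (b e2 c0 : ℕ) {L : Lang}
    (h : ∀ x : List Bool, sol
      (List.replicate (2 ^ EJ r (2 * r) b e2 (2 ^ (x.length + c0 + 1))) ())
      (List.replicate (2 ^ (x.length + c0 + 1)) ()) x = L x) : InDTIMEdouble O ε L := by
  have hr0 : (0 : ℝ) < r := by exact_mod_cast (by omega : 0 < r)
  have hlen : ∀ x : List Bool, (List.replicate (c0 + 1) () ++ ulen x).length =
      x.length + c0 + 1 := by
    intro x
    rw [ulen_eq, List.length_append, List.length_replicate, List.length_replicate]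
    omega
  -- the program
  have hprog : XT O (fun p : List Bool × List Bool => sol
      (List.replicate (2 ^ EJ r (2 * r) b e2 (2 ^ (p.1.length + c0 + 1))) ())
      (List.replicate (2 ^ (p.1.length + c0 + 1)) ()) p.1)
      (fun p => 2 ^ (p.1.length + c0 + 1) +
        2 ^ EJ r (2 * r) b e2 (2 ^ (p.1.length + c0 + 1))) := by
    have ha1 : PTime O (fun p : List Bool × List Bool =>
        List.replicate (c0 + 1) () ++ ulen p.1) :=
      PTime.append (PTime.const (List.replicate (c0 + 1) ())) (PTime.ulen PTime.id.fst)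
    have h1 := XT.exp ha1
    have ha2 : PTime O (fun q : List Unit × (List Bool × List Bool) =>
        List.replicate (EJ r (2 * r) b e2 q.1.length) ()) :=
      UPoly.comp (g := EJ r (2 * r) b e2) (EJ_upoly r (2 * r) b e2) PTime.id.fst
    have h2 := XT.exp ha2
    have h3 : PTime O (fun q : List Unit × (List Unit × (List Bool × List Bool)) =>
        sol q.1 q.2.1 q.2.2.1) :=
      hsol.comp (PTime.id.fst.pair (PTime.id.snd.fst.pair PTime.id.snd.snd.fst))
    have h4 := (XT.of_ptime h3 (fun _ => 0)).comp (h2.comp h1)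
    have h5 := h4.mono (g' := fun p : List Bool × List Bool => 2 ^ (p.1.length + c0 + 1) +
      2 ^ EJ r (2 * r) b e2 (2 ^ (p.1.length + c0 + 1))) (10 * Polynomial.X + 10) (by
        rintro ⟨x, ρ⟩
        simp only [sz_pair, sz_units, List.length_replicate, hlen, Polynomial.eval_add,
          Polynomial.eval_mul, Polynomial.eval_ofNat, Polynomial.eval_X]
        omega)
    refine (funext fun p => ?_ : (fun p : List Bool × List Bool => sol
      (List.replicate (2 ^ EJ r (2 * r) b e2 (2 ^ (p.1.length + c0 + 1))) ())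
      (List.replicate (2 ^ (p.1.length + c0 + 1)) ()) p.1) = _) ▸ h5
    simp only [List.length_replicate]
    rw [hlen]
  obtain ⟨p, κ, hp⟩ := XT.run2_dec (V := fun x _ => sol
      (List.replicate (2 ^ EJ r (2 * r) b e2 (2 ^ (x.length + c0 + 1))) ())
      (List.replicate (2 ^ (x.length + c0 + 1)) ()) x) hprog
  obtain ⟨C, hC, hEJ⟩ := EJ_realc hr b e2 c0
  obtain ⟨a, ha⟩ := growthC κ 0 (C := C) (δ := 1 / (r : ℝ)) (ε := ε) hC (by positivity) hrε
  refine ⟨p, a, fun x => ?_⟩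
  obtain ⟨t, ht, h1, h2⟩ := hp x []
  refine ⟨t, ?_, h1, ?_⟩
  · refine le_trans (Nat.cast_le.mpr (ht.trans (Nat.pow_le_pow_left ?_ κ)))
      (ha x.length _ (hEJ x.length))
    rw [List.length_nil]
    have h3 : 2 ^ (EJ r (2 * r) b e2 (2 ^ (x.length + c0 + 1)) + (x.length + c0 + 2)) =
        2 * (2 ^ EJ r (2 * r) b e2 (2 ^ (x.length + c0 + 1)) * 2 ^ (x.length + c0 + 1)) := by
      rw [pow_add, pow_succ 2 (x.length + c0 + 1)]
      ring
    rw [h3]
    have hA1 : 1 ≤ 2 ^ EJ r (2 * r) b e2 (2 ^ (x.length + c0 + 1)) := Nat.one_le_two_pow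
    have hB1 : 1 ≤ 2 ^ (x.length + c0 + 1) := Nat.one_le_two_pow
    generalize 2 ^ EJ r (2 * r) b e2 (2 ^ (x.length + c0 + 1)) = A at hA1 ⊢
    generalize 2 ^ (x.length + c0 + 1) = B at hB1 ⊢
    have hA : A ≤ A * B := Nat.le_mul_of_pos_right _ hB1
    have hB : B ≤ A * B := Nat.le_mul_of_pos_left _ hA1
    generalize 2 ^ (0 * (x.length + 1)) = E1
    generalize 2 ^ (x.length + 1) = E2
    simp only [add_zero]
    omega
  · rw [h2, h x]

end Pool.Agent.DET
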