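import Pool.Agent.Lib_helper57.YF.H
import Pool.Agent.Lib_helper78.PCL.C

/-!
# Few rounds of queries, deterministically: the verifier, constants (MP_675993_lc)
-/

set_option autoImplicit false
set_option linter.unusedSectionVars false

namespace Pool.Agent.DET

open Pool.Agent.CK Pool.Agent.CKP Pool.Agent.PCL

variable {O : Lang}

/-- a program for a verifier, as in `wit` -/
theorem exists_wit {V : List Bool → List Bool → Bool}
    (hV : PTime O (fun p : List Bool × List Bool => V p.1 p.2)) (k0 : ℕ) :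
    ∃ (d : Cmd) (k : ℕ), ∀ x y : List Bool,
      (wit O d k x y = true → V x y = true) ∧
      (y.length ≤ (x.length + 2) ^ k0 → V x y = true → wit O d k x y = true) := by
  obtain ⟨c, k1, hc⟩ := run2_dec hV
  refine ⟨c, (k0 + 2) * k1 + k0, fun x y => ⟨fun h => ?_, fun hy h => ?_⟩⟩
  · rw [wit_iff] at h
    obtain ⟨h1, h2⟩ := hc x y
    rw [← h2]
    rcases le_total ((x.length + 2) ^ ((k0 + 2) * k1 + k0)) ((x.length + y.length + 2) ^ k1) with
      hle | hle
    · have h3 := run_stable h.2.1 hle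
      unfold Accepts
      rw [h3]
      exact h.2
    · have h3 := run_stable h1 hle
      have h4 := h.2
      unfold Accepts at h4
      rw [h3] at h4
      exact h4
  · rw [wit_iff]
    obtain ⟨h1, h2⟩ := hc x y
    have hb : 1 ≤ (x.length + 2) ^ k0 := Nat.one_le_pow _ _ (by omega)
    have ht : (x.length + y.length + 2) ^ k1 ≤ (x.length + 2) ^ ((k0 + 2) * k1 + k0) := by
      have h5 : x.length + y.length + 2 ≤ (x.length + 2) ^ (k0 + 2) := by
        have h6 : (x.length + 2) ^ (k0 + 2) =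
            (x.length + 2) ^ k0 * ((x.length + 2) * (x.length + 2)) := by ring
        rw [h6]
        generalize (x.length + 2) ^ k0 = P at hb hy ⊢
        have h4 : x.length + 2 ≤ P * (x.length + 2) := Nat.le_mul_of_pos_left _ hb
        have h5 : P ≤ P * (x.length + 2) := Nat.le_mul_of_pos_right _ (by omega)
        have h6 : P * ((x.length + 2) * (x.length + 2)) =
            (P * (x.length + 2)) * (x.length + 2) := by ring
        have h7 : (P * (x.length + 2)) * 2 ≤ (P * (x.length + 2)) * (x.length + 2) :=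
          Nat.mul_le_mul_left _ (by omega)
        omega
      calc (x.length + y.length + 2) ^ k1 ≤ ((x.length + 2) ^ (k0 + 2)) ^ k1 :=
            Nat.pow_le_pow_left h5 k1
        _ = (x.length + 2) ^ ((k0 + 2) * k1) := by rw [← pow_mul]
        _ ≤ _ := Nat.pow_le_pow_right (by omega) (Nat.le_add_right _ _)
    refine ⟨hy.trans (Nat.pow_le_pow_right (by omega) (Nat.le_add_left _ _)), ?_⟩
    have h3 := run_stable h1 ht
    have h4 := h2.mpr h
    unfold Accepts at h4 ⊢
    rw [h3]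
    exact h4

section

variable {W : ℕ → ℕ → Bool} {ℓ : ℕ → ℕ}

/-- a number of the length of `colr` is small -/
theorem length_le_q1 (M : List Unit) (u : ℕ) : M.length ≤ 3 * (q1 M u).length + 1 := by
  have h1 := colr_le (q1 M u)
  rw [colr_q1] at h1
  exact h1

/-- **The verifier.** -/
theorem exists_verD (hver : Ver O W ℓ) : ∃ (d : Cmd) (k : ℕ),
    (∀ (M : List Unit) (u : ℕ) (y : List Bool), wit O d k (q1 M u) y = true →
      chk W M u (ofBits y) = true) ∧
    ∀ (M : List Unit) (u v : ℕ), W M.length v = true → v < u →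
      ∃ y, wit O d k (q1 M u) y = true := by
  obtain ⟨PL, hPL⟩ := hver.hl.bound
  obtain ⟨k0, hk0⟩ := exists_pow (PL.comp (3 * Polynomial.X + 1))
  have hV : PTime O (fun p : List Bool × List Bool =>
      decide (CKP.ofBits p.2 < CKP.thr p.1) && W (CKP.colr p.1).length (CKP.ofBits p.2)) :=
    (PTime.nat_lt (PTime.ofBits PTime.id.snd) (PTime.thr PTime.id.fst)).and
      (hver.ptime (PTime.colr PTime.id.fst) (PTime.ofBits PTime.id.snd))
  obtain ⟨d, k, h⟩ := exists_wit (V := fun x y =>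
    decide (CKP.ofBits y < CKP.thr x) && W (CKP.colr x).length (CKP.ofBits y)) hV k0
  refine ⟨d, k, fun M u y hy => ?_, fun M u v hv hvu => ⟨v.bits, ?_⟩⟩
  · have h1 := (h (q1 M u) y).1 hy
    rw [thr_q1, colr_q1, Bool.and_eq_true] at h1
    unfold chk
    rw [Bool.and_eq_true]
    exact ⟨h1.2, h1.1⟩
  · refine (h (q1 M u) v.bits).2 ?_ ?_
    · refine (bits_length_le (hver.hb _ _ hv)).trans ((hPL _).trans (le_trans ?_ (hk0 _)))
      rw [Polynomial.eval_comp]
      refine poly_mono PL ?_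
      simp only [Polynomial.eval_add, Polynomial.eval_mul, Polynomial.eval_ofNat,
        Polynomial.eval_X, Polynomial.eval_one]
      exact length_le_q1 M u
    · rw [thr_q1, colr_q1, ofBits_bits, Bool.and_eq_true, decide_eq_true_eq]
      exact ⟨hvu, hv⟩

/-- the length of the code of `(M, u)` -/
theorem length_q1 {M : List Unit} {u L : ℕ} (hu : u ≤ 2 ^ L) :
    (q1 M u).length ≤ 2 * M.length + 4 * L + 16 := by
  have h1 : (q1 M u).length = (D.cons .nil (.cons (toD M) (toD u))).size := D.enc_length _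
  have h2 : (D.cons .nil (.cons (toD M) (toD u))).size = D.nil.size + (sz M + sz u + 1) + 1 := rfl
  have h3 : sz M = 2 * M.length + 1 := sz_units M
  have h4 := sz_nat_le_pow hu
  have h5 : D.nil.size ≤ 1 := le_rfl
  omega

/-- **The exponent.** -/
theorem exists_kap (hver : Ver O W ℓ) (kk : ℕ) : ∃ κ : ℕ, 4 ≤ κ ∧
    ∀ (N0 : ℕ) (M : List Unit) (u : ℕ), M.length ≤ N0 → u ≤ 2 ^ ℓ M.length →
      (q1 M u).length ≤ (N0 + 2) ^ κ ∧ ((q1 M u).length + 2) ^ kk < (N0 + 2) ^ κ := by
  obtain ⟨PL, hPL⟩ := hver.hl.bound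
  obtain ⟨k1, hk1⟩ := exists_pow ((2 * Polynomial.X + 4 * PL + 18) ^ kk + 1)
  obtain ⟨k2, hk2⟩ := exists_pow (2 * Polynomial.X + 4 * PL + 16)
  refine ⟨k1 + k2 + 4, by omega, fun N0 M u hM hu => ?_⟩
  have h1 := length_q1 (M := M) hu
  have h2 : ℓ M.length ≤ PL.eval N0 := (hPL _).trans (poly_mono PL hM)
  have h3 : (q1 M u).length ≤ 2 * N0 + 4 * PL.eval N0 + 16 := by omega
  constructor
  · have h4 := hk2 N0
    simp only [Polynomial.eval_add, Polynomial.eval_mul, Polynomial.eval_ofNat,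
      Polynomial.eval_X] at h4
    exact h3.trans (h4.trans (Nat.pow_le_pow_right (by omega) (by omega)))
  · have h4 := hk1 N0
    simp only [Polynomial.eval_add, Polynomial.eval_mul, Polynomial.eval_ofNat,
      Polynomial.eval_X, Polynomial.eval_pow, Polynomial.eval_one] at h4
    have h5 : ((q1 M u).length + 2) ^ kk ≤ (2 * N0 + 4 * PL.eval N0 + 18) ^ kk :=
      Nat.pow_le_pow_left (by omega) _
    exact lt_of_lt_of_le (lt_of_le_of_lt h5 (Nat.lt_succ_self _))
      (h4.trans (Nat.pow_le_pow_right (by omega) (by omega)))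

end

/-- `EJ` is smaller than the fourth power, for large arguments -/
theorem EJ_lt (r R b e2 : ℕ) : ∃ n1 : ℕ, ∀ N0 : ℕ, n1 ≤ N0 →
    EJ r R b e2 N0 < (N0 + 2) ^ 4 := by
  refine ⟨(b + 4) * (2 * e2 + 3), fun N0 h => ?_⟩
  have hrt : ∀ r n : ℕ, rt r n ≤ n + 1 := by
    intro r n
    unfold rt
    refine (List.length_filter_le _ _).trans ?_
    rw [List.length_range]
  have h1 := hrt r N0
  have h2 := hrt R (N0 + 2)
  have h3 : (N0 + 2).bits.length ≤ N0 + 2 :=
    bits_length_le (Nat.lt_two_pow_self)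
  have h4 : tauJ R b N0 ≤ (b + 3) * (N0 + 2) := by
    unfold tauJ
    nlinarith [Nat.zero_le (b * N0)]
  have h5 : sJ e2 N0 ≤ (e2 + 1) * (N0 + 2) := by
    unfold sJ
    have := Nat.mul_le_mul_left e2 h3
    nlinarith
  have h6 : tauJ R b N0 * sJ e2 N0 ≤ ((b + 3) * (N0 + 2)) * ((e2 + 1) * (N0 + 2)) :=
    Nat.mul_le_mul h4 h5
  have h7 : EJ r R b e2 N0 ≤ ((b + 4) * (2 * e2 + 3)) * ((N0 + 2) * (N0 + 2)) := by
    unfold EJ
    have h8 : N0 + 1 ≤ 1 * ((N0 + 2) * (N0 + 2)) := by nlinarith [Nat.zero_le (N0 * N0)]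
    have h9 : ((b + 3) * (N0 + 2)) * ((e2 + 1) * (N0 + 2)) =
        ((b + 3) * (e2 + 1)) * ((N0 + 2) * (N0 + 2)) := by ring
    have h10 : 1 + (b + 3) * (e2 + 1) ≤ (b + 4) * (2 * e2 + 3) := by
      nlinarith [Nat.zero_le (b * e2)]
    calc rt r N0 + tauJ R b N0 * sJ e2 N0
        ≤ 1 * ((N0 + 2) * (N0 + 2)) + ((b + 3) * (e2 + 1)) * ((N0 + 2) * (N0 + 2)) := by
          rw [← h9]
          exact Nat.add_le_add (h1.trans h8) h6
      _ = (1 + (b + 3) * (e2 + 1)) * ((N0 + 2) * (N0 + 2)) := by ring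
      _ ≤ _ := Nat.mul_le_mul_right _ h10
  have h8 : (N0 + 2) ^ 4 = ((N0 + 2) * (N0 + 2)) * ((N0 + 2) * (N0 + 2)) := by ring
  rw [h8]
  refine lt_of_le_of_lt h7 ?_
  have h9 : (b + 4) * (2 * e2 + 3) < (N0 + 2) * (N0 + 2) := by nlinarith [Nat.zero_le (N0 * N0)]
  exact Nat.mul_lt_mul_of_pos_right h9 (by positivity)

end Pool.Agent.DET
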